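import Pool.Agent.Lib.DN.F4.FH

/-!
# Theorem DR (`2` ramified in `K`), part F: the generic form of the local end (helper12)

`c` has the valuation `1/2` (`c² / 2` is a unit), `a / c` is integral, `b` is integral; `e` is the `x`-coordinate of a
point of order two with `e = - r²`, `2 r = a + b/e`, `c r` a unit. The coefficients of `u` are divisible by `c`, the
leading one exactly. Then the same holds for `T = T(u)`, and `X(u) - e` is not the square of a quotient of bounded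
series: `T² (X - e) = (1 - r T)² - b (T / r² + W)`.
-/

set_option autoImplicit false

namespace DR.F4

open PowerSeries DI.F4 DN.F4

section val

variable {Om : Type} [Field Om] [CharZero Om] {V : ValuationSubring Om} {c : Om}

theorem c_inv (h2 : (2 : Om)⁻¹ ∉ V) (hc0 : c ≠ 0) (hc : c ^ 2 / 2 ∈ V) : c⁻¹ ∉ V := by
  intro h1
  apply h2
  have h4 : (2 : Om)⁻¹ = (c⁻¹) ^ 2 * (c ^ 2 / 2) := by
    field_simp
  rw [h4]
  exact mul_mem (pow_mem h1 2) hc

theorem c_mem (h2 : (2 : Om)⁻¹ ∉ V) (hc0 : c ≠ 0) (hc : c ^ 2 / 2 ∈ V) : c ∈ V :=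
  (V.mem_or_inv_mem c).resolve_right (c_inv h2 hc0 hc)

private theorem two_pow (j : ℕ) : 2 * j ≤ 2 ^ j := by
  induction j with
  | zero => omega
  | succ j ih =>
    rcases Nat.lt_or_ge j 1 with h | h
    · interval_cases j
      norm_num
    · have h1 : 2 ^ 1 ≤ 2 ^ j := Nat.pow_le_pow_right (by norm_num) h
      rw [pow_succ]
      omega

/-- the estimate of the logarithm -/
theorem est (h2 : (2 : Om)⁻¹ ∉ V) (hc0 : c ≠ 0) (hc : c ^ 2 / 2 ∈ V) {m : ℕ} (hm : 1 ≤ m) :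
    c ^ m / m ∈ V := by
  obtain ⟨j, m', hm', rfl⟩ := Nat.exists_eq_pow_mul_and_not_dvd (show m ≠ 0 by omega) 2
    (by norm_num)
  have hm0 : m' ≠ 0 := by
    rintro rfl
    exact hm' (dvd_zero 2)
  have hm1 : (m' : Om) ≠ 0 := by exact_mod_cast hm0
  have h3 : 2 * j ≤ 2 ^ j * m' := by
    have h4 := two_pow j
    have h5 : 2 ^ j * 1 ≤ 2 ^ j * m' := Nat.mul_le_mul_left _ (by omega)
    omega
  have h4 : c ^ (2 ^ j * m') / ((2 ^ j * m' : ℕ) : Om) =
      c ^ (2 ^ j * m' - 2 * j) * (c ^ 2 / 2) ^ j * (m' : Om)⁻¹ := by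
    have e1 : c ^ (2 ^ j * m') = c ^ (2 ^ j * m' - 2 * j) * (c ^ 2) ^ j := by
      rw [← pow_mul, ← pow_add, Nat.sub_add_cancel h3]
    rw [e1]
    push_cast
    have : (2 : Om) ^ j ≠ 0 := pow_ne_zero _ two_ne_zero
    rw [div_pow]
    field_simp
  rw [h4]
  exact mul_mem (mul_mem (pow_mem (c_mem h2 hc0 hc) _) (pow_mem hc j)) (odd_inv h2 hm')

end val

section om

variable {Om : Type} [Field Om] [CharZero Om] {O : Subring Om}

/-- the coefficients of the invariant differential are divisible by `c` -/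
theorem omS_c {a b c : Om} (hc0 : c ≠ 0) (hcO : c ∈ O) (hc : 2 / c ∈ O) (ha : a / c ∈ O) (hb : b ∈ O)
    {n : ℕ} (hn : 1 ≤ n) : coeff n (omS a b) / c ∈ O := by
  have haO : a ∈ O := by
    have : a = c * (a / c) := by field_simp
    rw [this]
    exact O.mul_mem hcO ha
  have h1 : omS a b = 1 + C c * (omS a b * (C (a / c) * X + C (2 / c * b) * (X ^ 3 * wS a b))) := by
    have h2 := PS_omS a b
    have h3 : (C a : Om⟦X⟧) = C c * C (a / c) := by
      rw [← map_mul]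
      congr 1
      field_simp
    have h4 : (2 : Om⟦X⟧) * C b = C c * C (2 / c * b) := by
      rw [← map_ofNat C 2, ← map_mul, ← map_mul]
      congr 1
      field_simp
    unfold PS at h2
    linear_combination h2 + X * omS a b * h3 + omS a b * (X ^ 3 * wS a b) * h4
  have h4 : In O (omS a b * (C (a / c) * X + C (2 / c * b) * (X ^ 3 * wS a b))) :=
    (In.omS haO hb).mul (((In.C ha).mul In.X).add ((In.C (O.mul_mem hc hb)).mul ((In.X.pow 3).mul
      (In.wS haO hb))))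
  have h5 : coeff n (omS a b) =
      c * coeff n (omS a b * (C (a / c) * X + C (2 / c * b) * (X ^ 3 * wS a b))) := by
    have h6 := congrArg (coeff n) h1
    rw [map_add, coeff_one, if_neg (by omega), zero_add, coeff_C_mul] at h6
    exact h6
  rw [h5, mul_div_cancel_left₀ _ hc0]
  exact h4 n

end om

/-- **FH**, generic form. -/
theorem fh {Om : Type} [Field Om] [CharZero Om] {V : ValuationSubring Om} {S : Subfield Om}
    {ϖ : Om} (hU : Unif V S ϖ) (h2 : (2 : Om)⁻¹ ∉ V) {c a b e r : Om}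
    (hc0 : c ≠ 0) (hc : c ^ 2 / 2 ∈ V) (hc' : (c ^ 2 / 2)⁻¹ ∈ V) (cS : c ∈ S)
    (ha : a / c ∈ V) (aS : a ∈ S) (hb : b ∈ V) (hb0 : b ≠ 0) (hbi : b⁻¹ ∈ V) (bS : b ∈ S)
    (hr : c * r ∈ V) (hr0 : r ≠ 0) (hri : (c * r)⁻¹ ∈ V) (rS : r ∈ S)
    (hre : r ^ 2 = -e) (hra : 2 * r = a + b / e) {u T W ψ Q1 Q2 : Om⟦X⟧}
    (uV : ∀ n, coeff n u / c ∈ V) (uS : ∀ n, coeff n u ∈ S) (u0 : coeff 0 u = 0)
    (u1 : coeff 1 u ≠ 0) (u1' : (coeff 1 u / c)⁻¹ ∈ V) (hT : TWr a b u T W)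
    (hψ : ψ ^ 2 * W = X ^ 2 * (T - C e * W)) (hQ2 : Q2 ≠ 0) (hQ : Q2 * ψ = Q1)
    (Q1S : ∀ n, coeff n Q1 ∈ S) (Q2S : ∀ n, coeff n Q2 ∈ S)
    (Q1V : ∀ n, coeff n Q1 ∈ V) (Q2V : ∀ n, coeff n Q2 ∈ V) : False := by
  have hcV := c_mem h2 hc0 hc
  have hcI := c_inv h2 hc0 hc
  have h2c : 2 / c ∈ V := by
    have h3 : 2 / c = (c ^ 2 / 2)⁻¹ * c := by field_simp
    rw [h3]
    exact mul_mem hc' hcV
  have haV : a ∈ V := by
    have : a = c * (a / c) := by field_simp
    rw [this]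
    exact mul_mem hcV ha
  have hT0 : constantCoeff T = 0 := by
    rw [← coeff_zero_eq_constantCoeff_apply]
    exact hT.T0
  have hW0 : constantCoeff W = 0 := by
    rw [← coeff_zero_eq_constantCoeff_apply]
    exact hT.W0
  have hu0 : constantCoeff u = 0 := by
    rw [← coeff_zero_eq_constantCoeff_apply]
    exact u0
  have hTne : T ≠ 0 := by
    intro h
    have := hT.T1
    rw [h, map_zero] at this
    exact u1 this.symm
  obtain ⟨hlg, hWT⟩ := lg_of_diff hT0 hW0 hu0 hTne hT.curve hT.diff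
  -- the series `T1`
  obtain ⟨T1, hT1⟩ : ∃ T1, T1 = C c⁻¹ * T := ⟨_, rfl⟩
  have hT1' : T = C c * T1 := by
    rw [hT1, ← mul_assoc, ← map_mul, mul_inv_cancel₀ hc0, map_one, one_mul]
  have hT10 : constantCoeff T1 = 0 := by
    rw [hT1, map_mul, hT0, mul_zero]
  obtain ⟨ℓ, hℓ⟩ : ∃ ℓ : Om⟦X⟧, ℓ = mk fun m => coeff m (lgS a b) * c ^ (m - 1) := ⟨_, rfl⟩
  have hℓ0 : constantCoeff ℓ = 0 := by
    rw [← coeff_zero_eq_constantCoeff_apply, hℓ, coeff_mk, coeff_zero_eq_constantCoeff_apply,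
      lgS_const, zero_mul]
  have hℓ1 : coeff 1 ℓ = 1 := by
    rw [hℓ, coeff_mk, coeff_one_lgS, Nat.sub_self, pow_zero, mul_one]
  have hℓV : In V.toSubring ℓ := by
    intro m
    rcases Nat.eq_zero_or_pos m with h | h
    · rw [h, coeff_zero_eq_constantCoeff_apply, hℓ0]
      exact V.zero_mem
    · rcases Nat.lt_or_ge 1 m with h' | h'
      · have h3 : coeff m ℓ = coeff (m - 1) (omS a b) / c * (c ^ m / m) := by
          obtain ⟨m', rfl⟩ : ∃ m', m = m' + 1 := ⟨m - 1, by omega⟩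
          rw [hℓ, coeff_mk, lgS, coeff_mk, Nat.add_sub_cancel, pow_succ]
          field_simp
        rw [h3]
        exact V.mul_mem _ _ (omS_c (O := V.toSubring) hc0 hcV h2c ha hb (by omega)) (est h2 hc0 hc h)
      · have h4 : m = 1 := by omega
        rw [h4, hℓ1]
        exact V.one_mem
  have hcs : cs ℓ T1 = C c⁻¹ * u := by
    ext n
    rw [coeff_C_mul, ← hlg, coeff_cs hT10, coeff_cs hT0, Finset.mul_sum]
    refine Finset.sum_congr rfl fun d _ => ?_
    rw [hT1', mul_pow, ← map_pow, coeff_C_mul, hℓ, coeff_mk]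
    rcases Nat.eq_zero_or_pos d with h | h
    · rw [h, coeff_zero_eq_constantCoeff_apply, lgS_const]
      ring
    · obtain ⟨d', rfl⟩ : ∃ d', d = d' + 1 := ⟨d - 1, by omega⟩
      rw [Nat.add_sub_cancel, pow_succ c d']
      field_simp
  have hT1V : In V.toSubring T1 := by
    refine In.of_cs hℓV hℓ0 hℓ1 hT10 ?_
    rw [hcs]
    intro n
    rw [coeff_C_mul]
    have := uV n
    rw [div_eq_inv_mul] at this
    exact this
  have hTS : In S.toSubring T := by
    refine In.of_cs (f := lgS a b) ?_ (lgS_const a b) (coeff_one_lgS a b) hT0 ?_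
    · intro m
      rw [lgS, coeff_mk]
      have h3 : coeff (m - 1) (omS a b) ∈ S := In.omS (O := S.toSubring) aS bS _
      have h4 : coeff (m - 1) (omS a b) / m ∈ S := div_mem h3 (natCast_mem S m)
      exact h4
    · rw [hlg]
      exact uS
  have hTV : In V.toSubring T := by
    rw [hT1']
    exact (In.C hcV).mul hT1V
  have hwV : In V.toSubring (cs (wS a b) T) := (In.wS (O := V.toSubring) haV hb).cs hTV hT0
  have hc11 : coeff 1 T1 = coeff 1 u / c := by
    rw [hT1, coeff_C_mul, hT.T1]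
    ring
  -- the series `t = T / X`
  obtain ⟨t, ht⟩ := (X_dvd_iff).2 hT0
  have htc : ∀ n, coeff n t = coeff (n + 1) T := by
    intro n
    rw [ht, coeff_succ_X_mul]
  have hWne : W ≠ 0 := by
    rw [hWT]
    refine mul_ne_zero (pow_ne_zero 3 hTne) ?_
    intro h
    have h3 : constantCoeff (cs (wS a b) T) = 1 := by
      rw [constantCoeff_cs hT0, wS_const]
    rw [h, map_zero] at h3
    exact zero_ne_one h3
  have hsq : (t * ψ) ^ 2 = 1 - C a * T - C b * W - C e * T ^ 2 := by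
    apply mul_right_cancel₀ hWne
    have h3 := hT.curve
    have h4 : (t * ψ) ^ 2 * W = T ^ 2 * (T - C e * W) := by
      rw [ht] at hψ ⊢
      linear_combination t ^ 2 * hψ
    rw [h4]
    linear_combination -h3
  have hδ2 : c / 2 ∉ V := by
    intro h3
    apply hcI
    have h4 : c⁻¹ = (c ^ 2 / 2)⁻¹ * (c / 2) := by
      field_simp
    rw [h4]
    exact mul_mem hc' h3
  -- `q = c² / 2 / (c r)²`
  obtain ⟨q, hq⟩ : ∃ q, q = c ^ 2 / 2 * ((c * r)⁻¹) ^ 2 := ⟨_, rfl⟩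
  have hqV : q ∈ V := by
    rw [hq]
    exact mul_mem hc (pow_mem hri 2)
  have hq0 : q ≠ 0 := by
    rw [hq]
    exact mul_ne_zero (div_ne_zero (pow_ne_zero 2 hc0) two_ne_zero)
      (pow_ne_zero 2 (inv_ne_zero (mul_ne_zero hc0 hr0)))
  have hqi : q⁻¹ ∈ V := by
    have h3 : q⁻¹ = (c ^ 2 / 2)⁻¹ * (c * r) ^ 2 := by
      rw [hq, mul_inv, inv_pow, inv_inv]
    rw [h3]
    exact mul_mem hc' (pow_mem hr 2)
  -- `s` and `y`
  obtain ⟨s, hs⟩ : ∃ s, s = 1 - C (c * r) * T1 := ⟨_, rfl⟩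
  obtain ⟨y, hy⟩ : ∃ y, y = C (b * q) * T1 +
    C (b * (c ^ 2 / 2)) * (T1 ^ 3 * cs (wS a b) T) := ⟨_, rfl⟩
  have vs : In V.toSubring s := by
    rw [hs]
    exact In.one.sub ((In.C hr).mul hT1V)
  have vy : In V.toSubring y := by
    rw [hy]
    exact ((In.C (mul_mem hb hqV)).mul hT1V).add
      ((In.C (mul_mem hb hc)).mul ((hT1V.pow 3).mul hwV))
  have he0 : e ≠ 0 := by
    intro h
    rw [h, neg_zero] at hre
    exact hr0 (pow_eq_zero_iff (two_ne_zero) |>.1 hre)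
  have hsy : 1 - C a * T - C b * W - C e * T ^ 2 = s ^ 2 - 2 * C c * y := by
    have e2 : (C e : Om⟦X⟧) = -(C r) ^ 2 := by
      rw [← map_pow, ← map_neg]
      congr 1
      rw [hre, neg_neg]
    -- `a c = 2 c r + 2 c b q`
    have e3 : (C a : Om⟦X⟧) * C c = 2 * C (c * r) + 2 * C c * C (b * q) := by
      have h3 : a * c = 2 * (c * r) + 2 * c * (b * q) := by
        have h4 : a = 2 * r - b / e := by linear_combination -hra
        have h5 : e = -r ^ 2 := by rw [hre, neg_neg]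
        rw [h4, h5, hq]
        field_simp
        ring
      rw [← map_mul, h3, map_add, map_mul, map_mul, map_mul, map_mul, map_ofNat]
    have e4 : (2 : Om⟦X⟧) * C (c ^ 2 / 2) = C c ^ 2 := by
      rw [← map_ofNat C 2, ← map_mul, ← map_pow]
      congr 1
      ring
    rw [hWT]
    obtain ⟨w, hw⟩ : ∃ w, w = cs (wS a b) T := ⟨_, rfl⟩
    rw [hs, hy, ← hw, hT1']
    have e5 : (C (b * (c ^ 2 / 2)) : Om⟦X⟧) = C b * C (c ^ 2 / 2) := map_mul _ _ _
    have e6 : (C (c * r) : Om⟦X⟧) = C c * C r := map_mul _ _ _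
    rw [e5]
    linear_combination (-T1) * e3 - (C c) ^ 2 * T1 ^ 2 * e2 +
      (C b * C c * T1 ^ 3 * w) * e4 - (C (c * r) + C c * C r) * T1 ^ 2 * e6
  have hy1 : coeff 1 y = b * q * (coeff 1 u / c) := by
    obtain ⟨t1, ht1⟩ := (X_dvd_iff).2 hT10
    have h3 : T1 ^ 3 * cs (wS a b) T = X ^ 2 * (X * (t1 ^ 3 * cs (wS a b) T)) := by
      have h4 : T1 ^ 3 = (X * t1) ^ 3 := by rw [← ht1]
      rw [h4]
      ring
    rw [hy, map_add, coeff_C_mul, coeff_C_mul, h3, coeff_X_pow_mul', if_neg (by norm_num),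
      mul_zero, add_zero, hc11]
  have hu10 : coeff 1 u / c ≠ 0 := div_ne_zero u1 hc0
  have sS : In S.toSubring s := by
    rw [hs, hT1]
    have hγS : c⁻¹ ∈ S := inv_mem cS
    exact In.one.sub ((In.C (mul_mem cS rS)).mul ((In.C hγS).mul hTS))
  have tS : In S.toSubring t := fun n => by
    rw [htc]
    exact hTS _
  have tV : In V.toSubring t := fun n => by
    rw [htc]
    exact hTV _
  have iQ1 : In S.toSubring Q1 := Q1S
  have iQ2 : In S.toSubring Q2 := Q2S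
  have wQ1 : In V.toSubring Q1 := Q1V
  have wQ2 : In V.toSubring Q2 := Q2V
  refine con hU h2 hc0 h2c hδ2 (y := y) (s := s) (Q1 := t * Q1) (Q2 := Q2) vy vs ?_ ?_
    ((tS.mul iQ1).sub (sS.mul iQ2)) Q2S ((tV.mul wQ1).sub (vs.mul wQ2)) Q2V hQ2 ?_
  · rw [hy1]
    exact mul_ne_zero (mul_ne_zero hb0 hq0) hu10
  · rw [hy1, mul_inv, mul_inv]
    exact mul_mem (mul_mem hbi hqi) u1'
  · rw [← hsy, ← hsq, ← hQ]
    ring

end DR.F4
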